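import Pool.Agent.W187.CV.Stm

/-! Project CV: the logarithm below the segment, complex case. -/

set_option autoImplicit false

namespace Pool.Agent.W377.CV

open Complex MeasureTheory Filter Topology Set
open Pool.Agent.W189.ML Pool.Agent.W189.LC Pool.Agent.W187.UR Pool.Agent.W187.CV

/-- a continuous logarithm of `1` is constant -/
theorem constnear {f : ℂ → ℂ} (hc : ContinuousAt f 2) (he : ∀ᶠ w in 𝓝 (2 : ℂ), exp (f w) = 1) :
    ∃ δ > 0, ∀ w : ℂ, dist w 2 < δ → f w = f 2 := by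
  have h2 : exp (f 2) = 1 := he.self_of_nhds
  have h3 : ∀ᶠ w in 𝓝 (2 : ℂ), dist (f w) (f 2) < 1 := hc.eventually (Metric.ball_mem_nhds _ one_pos)
  obtain ⟨δ, hδ, h4⟩ := Metric.eventually_nhds_iff.1 (he.and h3)
  refine ⟨δ, hδ, fun w hw => ?_⟩
  obtain ⟨h5, h6⟩ := h4 hw
  have h7 : exp (f w - f 2) = 1 := by rw [Complex.exp_sub, h5, h2, div_one]
  rw [Complex.dist_eq] at h6
  have h8 : |(f w - f 2).im| < 1 := (Complex.abs_im_le_norm _).trans_lt h6
  have h9 := abs_lt.1 h8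
  have hpi := Real.pi_gt_three
  have h10 := Complex.log_exp (x := f w - f 2) (by linarith [h9.1]) (by linarith [h9.2])
  rw [h7, Complex.log_one] at h10
  exact sub_eq_zero.1 h10.symm

theorem belx (h1 : S_FACX) (h2 : S_ROOT) : S_BELX := by
  intro Φ g h1' h3 h4 m hm
  obtain ⟨Z, n, Q, hZ, hQa, hQn, hQ2, htr⟩ := h1 Φ g h1' h3 h4 m hm
  obtain ⟨N, R, hN, hRa, hRs, hRQ⟩ := h2 Q hQa hQn
  obtain ⟨δ₁, hδ₁, M, hM0, hM⟩ := rect hRa hRs
  -- the branch near `2`
  have h22 : (2 : ℝ) ∈ Icc (0 : ℝ) 2 := ⟨by norm_num, le_rfl⟩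
  have h00 : (0 : ℝ) ∈ Icc (0 : ℝ) 2 := ⟨le_rfl, by norm_num⟩
  have hRa2 : AnalyticAt ℂ R 2 := by simpa using hRa 2 h22
  have hRs2 : R 2 ∈ slitPlane := by simpa using hRs 2 h22
  have hRQ2 : ∀ᶠ w in 𝓝 (2 : ℂ), R w ^ N = Q w := by simpa using hRQ 2 h22
  have hg2 : AnalyticAt ℂ g 2 := h3 2 (by norm_num)
  have hne2 : ∀ x ∈ Z, (2 : ℂ) - (x : ℂ) ∈ slitPlane := by
    intro x hx
    left
    have := (hZ x hx).2
    simp
    linarith
  have hs2 : (2 : ℂ) ∈ slitPlane := by left; simp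
  set L₀ : ℂ → ℂ := fun w => g w - m * log w - (∑ x ∈ Z, (n x : ℂ) * log (w - x)) -
    (N : ℂ) * log (R w) with hL₀
  have hL₀c : ContinuousAt L₀ 2 := by
    refine ContinuousAt.sub (ContinuousAt.sub (hg2.continuousAt.sub ?_) ?_) ?_
    · exact continuousAt_const.mul (ContinuousAt.clog continuousAt_id hs2)
    · refine tendsto_finsetSum _ fun x hx => ?_
      exact continuousAt_const.mul (ContinuousAt.clog (by fun_prop) (hne2 x hx))
    · exact continuousAt_const.mul (ContinuousAt.clog hRa2.continuousAt hRs2)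
  obtain ⟨δ₂, hδ₂, hbr⟩ := constnear (f := L₀) hL₀c (by
      have e1 : ∀ᶠ w in 𝓝 (2 : ℂ), w ∈ slitPlane := isOpen_slitPlane.mem_nhds hs2
      have e2 : ∀ᶠ w in 𝓝 (2 : ℂ), ∀ x ∈ Z, w - (x : ℂ) ∈ slitPlane := by
        rw [Filter.eventually_all_finset]
        intro x hx
        have : ContinuousAt (fun w : ℂ => w - (x : ℂ)) 2 := by fun_prop
        exact this.eventually (isOpen_slitPlane.mem_nhds (hne2 x hx))
      have e3 : ∀ᶠ w in 𝓝 (2 : ℂ), R w ∈ slitPlane :=
        hRa2.continuousAt.eventually (isOpen_slitPlane.mem_nhds hRs2)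
      filter_upwards [hQ2, e1, e2, e3, hRQ2] with w h6 h7 h8 h8' h8''
      have h9 : w ≠ 0 := slitPlane_ne_zero h7
      have h10 : ∀ x ∈ Z, w - (x : ℂ) ≠ 0 := fun x hx => slitPlane_ne_zero (h8 x hx)
      have h10' : R w ≠ 0 := slitPlane_ne_zero h8'
      rw [hL₀]
      simp only
      rw [Complex.exp_sub, Complex.exp_sub, Complex.exp_sub, h6, Complex.exp_int_mul,
        Complex.exp_log h9, Complex.exp_sum, Complex.exp_nat_mul, Complex.exp_log h10', h8'']
      have h11 : ∏ x ∈ Z, exp ((n x : ℂ) * log (w - x)) = ∏ x ∈ Z, (w - (x : ℂ)) ^ (n x) :=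
        Finset.prod_congr rfl fun x hx => by
          rw [Complex.exp_int_mul, Complex.exp_log (h10 x hx)]
      rw [h11]
      have h12 : ∏ x ∈ Z, (w - (x : ℂ)) ^ (n x) ≠ 0 :=
        Finset.prod_ne_zero_iff.2 fun x hx => zpow_ne_zero _ (h10 x hx)
      have h13 : w ^ m ≠ 0 := zpow_ne_zero _ h9
      have h14 : Q w ≠ 0 := by
        rw [← h8'']
        exact pow_ne_zero _ h10'
      field_simp)
  have hκ : exp (L₀ 2) = 1 := by
    have e3 := hRQ2.self_of_nhds
    have h6 := hQ2.self_of_nhds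
    have h9 : (2 : ℂ) ≠ 0 := by norm_num
    have h10 : ∀ x ∈ Z, (2 : ℂ) - (x : ℂ) ≠ 0 := fun x hx => slitPlane_ne_zero (hne2 x hx)
    have h10' : R 2 ≠ 0 := slitPlane_ne_zero hRs2
    rw [hL₀]
    simp only
    rw [Complex.exp_sub, Complex.exp_sub, Complex.exp_sub, h6, Complex.exp_int_mul,
      Complex.exp_log h9, Complex.exp_sum, Complex.exp_nat_mul, Complex.exp_log h10', e3]
    have h11 : ∏ x ∈ Z, exp ((n x : ℂ) * log (2 - x)) = ∏ x ∈ Z, ((2 : ℂ) - (x : ℂ)) ^ (n x) :=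
      Finset.prod_congr rfl fun x hx => by
        rw [Complex.exp_int_mul, Complex.exp_log (h10 x hx)]
    rw [h11]
    have h12 : ∏ x ∈ Z, ((2 : ℂ) - (x : ℂ)) ^ (n x) ≠ 0 :=
      Finset.prod_ne_zero_iff.2 fun x hx => zpow_ne_zero _ (h10 x hx)
    have h13 : (2 : ℂ) ^ m ≠ 0 := zpow_ne_zero _ h9
    have h14 : Q 2 ≠ 0 := by
      rw [← e3]
      exact pow_ne_zero _ h10'
    field_simp
  set κ : ℂ := L₀ 2 with hκd
  set η : ℝ := min (min δ₁ (δ₂ / 2)) 1 with hη
  have hη0 : 0 < η := lt_min (lt_min hδ₁ (by positivity)) one_pos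
  set L : ℂ → ℂ := fun w => m * log w + (∑ x ∈ Z, (n x : ℂ) * log (w - x)) +
    (N : ℂ) * log (R w) + κ with hL
  set r₀ : ℂ := (∑ x ∈ Z, (n x : ℂ) * (Real.log x - Real.pi * I)) + (N : ℂ) * log (R 0) + κ with hr₀
  refine ⟨η, (∑ x ∈ Z, |(n x : ℝ)| * Cx x) + N * M, L, r₀, ⟨hη0, ?_, ?_, ?_⟩, ?_, ?_⟩
  · have : 0 ≤ ∑ x ∈ Z, |(n x : ℝ)| * Cx x :=
      Finset.sum_nonneg fun x hx => mul_nonneg (abs_nonneg _) (Cx_nonneg (hZ x hx).1)
    have h6 : (0 : ℝ) ≤ (N : ℝ) * M := mul_nonneg (Nat.cast_nonneg _) hM0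
    linarith
  · intro w h6 h7 h8 h9
    have h10 : |w.im| ≤ δ₁ := by
      rw [abs_of_neg h9]
      have := (min_le_left (min δ₁ (δ₂ / 2)) 1).trans (min_le_left _ _)
      linarith
    have h11 := (hM w h6.le h7 h10).2
    rw [hL]
    refine DifferentiableAt.add (DifferentiableAt.add (DifferentiableAt.add ?_ ?_)
      (h11.const_mul _)) (differentiableAt_const _)
    · exact (DifferentiableAt.clog differentiableAt_id (Or.inl h6)).const_mul _
    · refine DifferentiableAt.fun_sum fun x hx => ?_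
      refine (DifferentiableAt.clog (by fun_prop) (Or.inr ?_)).const_mul _
      simp
      exact h9.ne
  · intro w h6 h7 h8 h9
    have h10 : |w.im| ≤ δ₁ := by
      rw [abs_of_neg h9]
      have := (min_le_left (min δ₁ (δ₂ / 2)) 1).trans (min_le_left _ _)
      linarith
    have h8' : -1 ≤ w.im := by
      have := min_le_right (min δ₁ (δ₂ / 2)) 1
      linarith
    have h11 := (hM w h6.le h7 h10).1
    have h12 : L w - m * log w - r₀ = (∑ x ∈ Z, (n x : ℂ) *
        (log (w - x) - (Real.log x - Real.pi * I))) + (N : ℂ) * (log (R w) - log (R 0)) := by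
      rw [hL, hr₀]
      simp only [mul_sub, Finset.sum_sub_distrib]
      ring
    rw [h12]
    set X := ‖w‖ * (1 + ‖w‖ * |Real.log (-w.im)|) with hX
    have hX1 : ‖w‖ ≤ X := by
      have : 0 ≤ ‖w‖ * (‖w‖ * |Real.log (-w.im)|) := by positivity
      rw [hX]; nlinarith
    have h13 : ‖∑ x ∈ Z, (n x : ℂ) * (log (w - x) - (Real.log x - Real.pi * I))‖ ≤
        ∑ x ∈ Z, |(n x : ℝ)| * Cx x * X := by
      refine norm_sum_le_of_le _ fun x hx => ?_
      rw [norm_mul, Complex.norm_intCast, mul_assoc]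
      exact mul_le_mul_of_nonneg_left (one_zero (hZ x hx).1 (hZ x hx).2 h6 h7 h8' h9)
        (abs_nonneg _)
    rw [← Finset.sum_mul] at h13
    have h14 : ‖(N : ℂ) * (log (R w) - log (R 0))‖ ≤ N * M * X := by
      rw [norm_mul, Complex.norm_natCast, mul_assoc]
      refine mul_le_mul_of_nonneg_left (h11.trans ?_) (Nat.cast_nonneg _)
      exact mul_le_mul_of_nonneg_left hX1 hM0
    calc ‖_ + (N : ℂ) * (log (R w) - log (R 0))‖ ≤
          (∑ x ∈ Z, |(n x : ℝ)| * Cx x) * X + N * M * X :=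
          (norm_add_le _ _).trans (add_le_add h13 h14)
      _ = _ := by rw [hX]; ring
  · intro w h6 h7 h8
    have h9 : dist w 2 < δ₂ := by
      rw [Complex.dist_eq]
      have e1 : w - 2 = ((w.im : ℝ) : ℂ) * I := by
        apply Complex.ext <;> simp [h6]
      rw [e1, norm_mul, Complex.norm_I, mul_one, Complex.norm_real, Real.norm_eq_abs,
        abs_of_neg h8]
      have := (min_le_left (min δ₁ (δ₂ / 2)) 1).trans (min_le_right _ _)
      linarith
    have h10 : g w - m * log w - (∑ x ∈ Z, (n x : ℂ) * log (w - x)) -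
      (N : ℂ) * log (R w) = κ := hbr w h9
    rw [hL]
    simp only
    linear_combination h10
  · have hne0 : R 0 ≠ 0 := by
      have h6 : R 0 ∈ slitPlane := by simpa using hRs 0 h00
      exact slitPlane_ne_zero h6
    have hRQ0 : R 0 ^ N = Q 0 := by
      have h6 := (hRQ 0 h00).self_of_nhds
      simpa using h6
    rw [htr, hr₀, Complex.exp_add, Complex.exp_add, Complex.exp_sum, Complex.exp_nat_mul,
      Complex.exp_log hne0, hRQ0, hκ, mul_one]
    congr 1
    refine Finset.prod_congr rfl fun x hx => ?_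
    have hx0 := (hZ x hx).1
    rw [Complex.exp_int_mul, Complex.exp_sub, Complex.exp_pi_mul_I, ← Complex.ofReal_exp,
      Real.exp_log hx0]
    congr 1
    ring

end Pool.Agent.W377.CV
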